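import Mathlib

/-!
# Weakly left duo rings are left Dischinger

No identity element is assumed. If `a = x a²`, then for `e = x a` and `b = e - e²` one has
`b a = 0`; the weakly left duo condition for `b` gives `e ^ (n + 2) (1 - e) ^ n = 0`, so that an
integral polynomial in `e` without constant term is an idempotent `f = w a` with `f a = a`.
Two more applications of the weakly left duo condition (to `f` and to `f - a f w`) finish the proof.
-/

namespace Pool.Agent.Results.MP_1cad20_al.WeaklyLeftDuo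

/-- `powSucc a n` is `a ^ (n + 1)` in a ring that need not have an identity. -/
def powSucc {R : Type*} [NonUnitalRing R] (a : R) : ℕ → R
  | 0 => a
  | n + 1 => powSucc a n * a

/-- `R` is weakly left duo: for every `a` there is an exponent `m = n + 1 ≥ 1` such that the left
ideal `R a ^ m = {r a ^ m : r ∈ R}` is a two-sided ideal. -/
def IsWeaklyLeftDuo (R : Type*) [NonUnitalRing R] : Prop :=
  ∀ a : R, ∃ n : ℕ, ∃ I : TwoSidedIdeal R, ∀ z : R, z ∈ I ↔ ∃ r : R, z = r * powSucc a n

/-- `R` is left Dischinger: every left strongly regular element (`a = x a²` for some `x`) is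
strongly regular, i.e. also satisfies `a = a² y` for some `y`. -/
def IsLeftDischinger (R : Type*) [NonUnitalRing R] : Prop :=
  ∀ a : R, (∃ x : R, a = x * (a * a)) → ∃ y : R, a = (a * a) * y

section

variable {R : Type*} [NonUnitalRing R]

theorem exists_pow (h : IsWeaklyLeftDuo R) (a : R) :
    ∃ n : ℕ, ∀ r s : R, ∃ t : R, (r * powSucc a n) * s = t * powSucc a n := by
  obtain ⟨n, I, hI⟩ := h a
  exact ⟨n, fun r s => (hI _).1 (I.mul_mem_right _ _ ((hI _).2 ⟨r, rfl⟩))⟩

theorem powSucc_mul_eq_zero {a b : R} (h : b * a = 0) (n : ℕ) : powSucc b n * a = 0 := by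
  cases n with
  | zero => exact h
  | succ n => rw [powSucc, mul_assoc, h, mul_zero]

theorem powSucc_idem {f : R} (h : f * f = f) (n : ℕ) : powSucc f n = f := by
  induction n with
  | zero => rfl
  | succ n ih => rw [powSucc, ih, h]

/-- For an idempotent `h` in a weakly left duo ring, `h s = h s h`. -/
theorem idem_mul (hR : IsWeaklyLeftDuo R) {h : R} (hh : h * h = h) (s : R) :
    h * s = h * s * h := by
  obtain ⟨n, hn⟩ := exists_pow hR h
  obtain ⟨t, ht⟩ := hn h s
  rw [powSucc_idem hh, hh] at ht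
  rw [ht, mul_assoc, hh]

theorem coe_powSucc (b : R) (n : ℕ) :
    ((powSucc b n : R) : Unitization ℤ R) = (b : Unitization ℤ R) ^ (n + 1) := by
  induction n with
  | zero => simp [powSucc]
  | succ n ih => rw [powSucc, Unitization.inr_mul, ih, pow_succ _ (n + 1)]

theorem exists_coe (z : Unitization ℤ R) (r : R) :
    ∃ r' : R, z * (r : Unitization ℤ R) = (r' : Unitization ℤ R) := by
  refine ⟨z.fst • r + z.snd * r, ?_⟩
  conv_lhs => rw [← Unitization.inl_fst_add_inr_snd_eq z]
  rw [add_mul, Unitization.inl_mul_inr, ← Unitization.inr_mul, ← Unitization.inr_add]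

open Polynomial in
/-- A commutative fact: `1 - (1 - X ^ N) ^ N` is an idempotent modulo `X ^ N (1 - X) ^ N`. -/
theorem poly_fact (N : ℕ) : ∃ q g c : ℤ[X], (1 - (1 - X ^ (N + 1)) ^ (N + 1) : ℤ[X]) = q * X ∧
    ((1 - X ^ (N + 1)) ^ (N + 1) : ℤ[X]) = g * (1 - X) ∧
    (1 - (1 - X ^ (N + 1)) ^ (N + 1) : ℤ[X]) * (1 - X ^ (N + 1)) ^ (N + 1)
      = c * (X ^ (N + 1) * (1 - X) ^ (N + 1)) := by
  have h1 : (X ^ (N + 1) : ℤ[X]) ∣ 1 - (1 - X ^ (N + 1)) ^ (N + 1) := by
    have := sub_dvd_pow_sub_pow (1 : ℤ[X]) (1 - X ^ (N + 1)) (N + 1)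
    simpa using this
  have h2 : (1 - X : ℤ[X]) ∣ 1 - X ^ (N + 1) := by
    have := sub_dvd_pow_sub_pow (1 : ℤ[X]) X (N + 1)
    simpa using this
  have h3 : ((1 - X) ^ (N + 1) : ℤ[X]) ∣ (1 - X ^ (N + 1)) ^ (N + 1) := pow_dvd_pow_of_dvd h2 _
  obtain ⟨q, hq⟩ := (dvd_pow_self (X : ℤ[X]) (Nat.succ_ne_zero N)).trans h1
  obtain ⟨g, hg⟩ := (dvd_pow_self (1 - X : ℤ[X]) (Nat.succ_ne_zero N)).trans h3
  obtain ⟨c, hc⟩ := mul_dvd_mul h1 h3
  exact ⟨q, g, c, by rw [hq, mul_comm], by rw [hg, mul_comm], by rw [hc, mul_comm]⟩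

theorem ring_fact {U : Type*} [Ring U] (E : U) (n : ℕ)
    (h : E * (E * (1 - E)) ^ (n + 1) * E = 0) :
    ∃ q g F : U, F * F = F ∧ F = q * E ∧ 1 - F = g * (1 - E) := by
  have h2 : E ^ (n + 3) * (1 - E) ^ (n + 1) = 0 := by
    have h4 : E * (E * (1 - E)) ^ (n + 1) * E = E ^ (n + 3) * (1 - E) ^ (n + 1) := by
      have h5 : (Polynomial.X * (Polynomial.X * (1 - Polynomial.X)) ^ (n + 1) * Polynomial.X :
          Polynomial ℤ) = Polynomial.X ^ (n + 3) * (1 - Polynomial.X) ^ (n + 1) := by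
        rw [mul_pow]; ring
      simpa using congrArg (Polynomial.aeval E) h5
    rw [← h4]; exact h
  obtain ⟨q, g, c, hq, hg, hc⟩ := poly_fact (n + 2)
  have hz : E ^ (n + 2 + 1) * (1 - E) ^ (n + 2 + 1) = 0 := by
    rw [show n + 2 + 1 = n + 3 from rfl, show n + 3 = (n + 1) + 2 from rfl,
      pow_add (1 - E) (n + 1) 2, ← mul_assoc, show n + 1 + 2 = n + 3 from rfl, h2, zero_mul]
  have hq' := congrArg (Polynomial.aeval E) hq
  have hg' := congrArg (Polynomial.aeval E) hg
  have hc' := congrArg (Polynomial.aeval E) hc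
  simp only [map_mul, map_sub, map_pow, map_one, Polynomial.aeval_X] at hq' hg' hc'
  refine ⟨Polynomial.aeval E q, Polynomial.aeval E g, _, ?_, hq', by rw [← hg']; abel⟩
  rw [hz, mul_zero] at hc'
  generalize (1 - E ^ (n + 2 + 1)) ^ (n + 2 + 1) = G at hc'
  have h7 : (1 - G) * (1 - G) - (1 - G) = - ((1 - G) * G) := by noncomm_ring
  rw [hc', neg_zero] at h7
  exact sub_eq_zero.1 h7

/-- From `a = x a²` one gets an idempotent `f = w a` with `f a = a`. -/
theorem exists_idem (hR : IsWeaklyLeftDuo R) {a x : R} (hax : a = x * (a * a)) :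
    ∃ w f : R, f = w * a ∧ f * f = f ∧ f * a = a := by
  obtain ⟨e, he⟩ : ∃ e, e = x * a := ⟨_, rfl⟩
  have hea : e * a = a := by rw [he, mul_assoc]; exact hax.symm
  obtain ⟨b, hb⟩ : ∃ b, b = e - e * e := ⟨_, rfl⟩
  have hba : b * a = 0 := by rw [hb, sub_mul, mul_assoc, hea, hea, sub_self]
  obtain ⟨n, hn⟩ := exists_pow hR b
  have h1 : e * powSucc b n * e = 0 := by
    obtain ⟨t, ht⟩ := hn e x
    have h0 : e * powSucc b n * e = (e * powSucc b n * x) * a := by
      nth_rw 2 [he]; rw [mul_assoc (e * powSucc b n) x a]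
    rw [h0, ht, mul_assoc, powSucc_mul_eq_zero hba, mul_zero]
  -- pass to the unitization
  obtain ⟨E, hE⟩ : ∃ E : Unitization ℤ R, E = (e : Unitization ℤ R) := ⟨_, rfl⟩
  have hbE : (b : Unitization ℤ R) = E * (1 - E) := by
    rw [hb, Unitization.inr_sub, Unitization.inr_mul, mul_sub, mul_one, hE]
  have h3 := congrArg (fun z : R => (z : Unitization ℤ R)) h1
  simp only [Unitization.inr_mul, coe_powSucc, hbE, Unitization.inr_zero, ← hE] at h3
  obtain ⟨q, g, F, hF2, hq, hg⟩ := ring_fact E n h3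
  obtain ⟨w, hw⟩ := exists_coe q x
  have hFw : F = ((w * a : R) : Unitization ℤ R) := by
    rw [hq, Unitization.inr_mul, ← hw, hE, he, Unitization.inr_mul]
    exact (mul_assoc q (x : Unitization ℤ R) (a : Unitization ℤ R)).symm
  refine ⟨w, w * a, rfl, ?_, ?_⟩
  · apply Unitization.inr_injective (R := ℤ)
    rw [Unitization.inr_mul, ← hFw, hF2]
  · apply Unitization.inr_injective (R := ℤ)
    rw [Unitization.inr_mul, ← hFw]
    have h8 : (1 - F) * (a : Unitization ℤ R) = 0 := by
      have h9 : (1 - E) * (a : Unitization ℤ R) = 0 := by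
        rw [sub_mul, one_mul, hE, ← Unitization.inr_mul, hea, sub_self]
      have h10 : g * (1 - E) * (a : Unitization ℤ R) = g * ((1 - E) * (a : Unitization ℤ R)) :=
        mul_assoc g (1 - E) (a : Unitization ℤ R)
      rw [hg, h10, h9, mul_zero]
    rw [sub_mul, one_mul] at h8
    exact (sub_eq_zero.1 h8).symm

end

/-- Every weakly left duo ring (an identity element is not assumed) is left Dischinger. -/
theorem result (R : Type*) [NonUnitalRing R] (hR : IsWeaklyLeftDuo R) : IsLeftDischinger R := by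
  rintro a ⟨x, hx⟩
  obtain ⟨w, f, hf, hff, hfa⟩ := exists_idem hR hx
  have haf : a * f = a := by
    have h1 := idem_mul hR hff a
    rw [hfa] at h1
    exact h1.symm
  set v : R := f * w with hv
  have hva : v * a = f := by rw [hv, mul_assoc, ← hf, hff]
  have hvf : v * f = v := by rw [hv]; exact (idem_mul hR hff w).symm
  set g : R := a * v with hg
  have hgg : g * g = g := by
    rw [hg, mul_assoc, ← mul_assoc v a v, hva, ← mul_assoc, haf]
  have hfg : f * g = g := by rw [hg, ← mul_assoc, hfa]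
  have hgf : g * f = g := by rw [hg, mul_assoc, hvf]
  have hga : g * a = a := by rw [hg, mul_assoc, hva, haf]
  have hh : (f - g) * (f - g) = f - g := by
    rw [sub_mul, mul_sub, mul_sub, hff, hfg, hgf, hgg]; abel
  have h1 : (f - g) * v * a = f - g := by
    rw [mul_assoc, hva, sub_mul, hff, hgf]
  have h2 : (f - g) * v * a = 0 := by
    rw [idem_mul hR hh v, mul_assoc, sub_mul f g a, hfa, hga, sub_self, mul_zero]
  have h3 : f = g := sub_eq_zero.1 (h1.symm.trans h2)
  refine ⟨v, ?_⟩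
  rw [mul_assoc, ← hg, ← h3, haf]

end Pool.Agent.Results.MP_1cad20_al.WeaklyLeftDuo
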